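import Pool.Agent.L7h69.TO.Count

/-! Octics with three terms in one variable: the theorem. -/

set_option autoImplicit false

namespace Pool.Agent.L7h69.TO

open Pool.Agent.L7h17.OC

/-- The form `F` of degree eight is `A(x,z) + B(x,z) y ^ m + c y ^ 8` with forms `A`, `B` of degrees `8`, `8 - m`
and a nonzero number `c` (the coordinates of `v` are `x = v 0`, `y = v 1`, `z = v 2`). -/
def ThreeTerms (m : ℕ) (F : MvPolynomial (Fin 3) ℝ) : Prop :=
  ∃ (a b : ℕ → ℝ) (c : ℝ), c ≠ 0 ∧ ∀ v : Fin 3 → ℝ, MvPolynomial.eval v F =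
    ∑ i ∈ Finset.range 9, a i * v 0 ^ i * v 2 ^ (8 - i) +
      (∑ i ∈ Finset.range (9 - m), b i * v 0 ^ i * v 2 ^ (8 - m - i)) * v 1 ^ m + c * v 1 ^ 8

/-- the polynomial with the coefficients `a i`, `i < n` -/
noncomputable def pl (n : ℕ) (a : ℕ → ℝ) : Polynomial ℝ :=
  ∑ i ∈ Finset.range n, Polynomial.C (a i) * Polynomial.X ^ i

lemma pl_eval (n : ℕ) (a : ℕ → ℝ) (x : ℝ) : (pl n a).eval x = ∑ i ∈ Finset.range n, a i * x ^ i := by
  simp [pl, Polynomial.eval_finsetSum]

lemma pl_deg (n : ℕ) (a : ℕ → ℝ) : (pl (n + 1) a).natDegree ≤ n := by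
  apply Polynomial.natDegree_sum_le_of_forall_le
  intro i hi
  rw [Finset.mem_range] at hi
  exact (Polynomial.natDegree_C_mul_X_pow_le _ _).trans (by omega)

theorem core (m : ℕ) (hm : 2 ≤ m) (hm7 : m ≤ 7) (e : Bool) (S : Finset (Fin 3)) (D : ℕ)
    (hS : ∀ y, y ≠ 0 → sg e y ∈ S)
    (hT : ∀ (A B : Polynomial ℝ) (c : ℝ), c ≠ 0 → A.natDegree ≤ 8 → B.natDegree ≤ 8 - m →
      Rg m A B c → ∃ T : Finset ℝ, T.card ≤ D ∧ ∀ x y, y ≠ 0 → Cri m A B c x y → x ∈ T)
    (hsame : ∀ (A B : Polynomial ℝ) (c : ℝ), c ≠ 0 → ∀ x y y', y ≠ 0 → y' ≠ 0 →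
      Cri m A B c x y → Cri m A B c x y' → sg e y = sg e y' → y = y')
    (hsame' : ∀ (b c : ℝ), c ≠ 0 → ∀ y y', y ≠ 0 → y' ≠ 0 →
      m * b * y ^ (m - 1) + 8 * c * y ^ 7 = 0 → m * b * y' ^ (m - 1) + 8 * c * y' ^ 7 = 0 →
      sg e y = sg e y' → y = y')
    (F : MvPolynomial (Fin 3) ℝ) (hF : F.IsHomogeneous 8) (hN : Nonsing F)
    (h3 : ThreeTerms m F) (k : ℕ) (hk : SplitsInto k F) :
    k ≤ (8 + D * S.card) / 2 + (S.card + 2) := by
  classical
  obtain ⟨a, b, c, hc, hv⟩ := h3
  obtain ⟨C, hne, hdis, hun, hsc, hcl⟩ := hk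
  obtain ⟨A, hA⟩ : ∃ A, A = pl 9 a := ⟨_, rfl⟩
  obtain ⟨B, hB⟩ : ∃ B, B = pl (9 - m) b := ⟨_, rfl⟩
  have hAd : A.natDegree ≤ 8 := by rw [hA]; exact pl_deg 8 a
  have hBd : B.natDegree ≤ 8 - m := by
    rw [hB, show 9 - m = (8 - m) + 1 by omega]
    exact pl_deg (8 - m) b
  -- the chart
  have hG : ∀ x y, MvPolynomial.eval (emb (x, y)) F = A.eval x + B.eval x * y ^ m + c * y ^ 8 := by
    intro x y
    rw [hv, hA, hB, pl_eval, pl_eval]
    simp [emb]
  have hGc : Continuous fun p : ℝ × ℝ => MvPolynomial.eval (emb (p.1, p.2)) F := by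
    have : (fun p : ℝ × ℝ => MvPolynomial.eval (emb (p.1, p.2)) F) =
        fun p : ℝ × ℝ => A.eval p.1 + B.eval p.1 * p.2 ^ m + c * p.2 ^ 8 := by
      funext p
      exact hG p.1 p.2
    rw [this]
    fun_prop
  have hx : ∀ x y, MvPolynomial.eval (emb (x, y)) (MvPolynomial.pderiv 0 F) =
      A.derivative.eval x + B.derivative.eval x * y ^ m := by
    intro x y
    have h1 := dx F x y
    have h2 : HasDerivAt (fun t => MvPolynomial.eval (emb (t, y)) F)
        (A.derivative.eval x + B.derivative.eval x * y ^ m) x := by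
      have h3 := ((A.hasDerivAt x).add ((B.hasDerivAt x).mul_const (y ^ m))).add_const (c * y ^ 8)
      refine h3.congr_of_eventuallyEq (Filter.Eventually.of_forall fun t => ?_)
      simp only [Pi.add_apply]
      exact hG t y
    exact h1.unique h2
  have hy : ∀ x y, MvPolynomial.eval (emb (x, y)) (MvPolynomial.pderiv 1 F) =
      m * B.eval x * y ^ (m - 1) + 8 * c * y ^ 7 := by
    intro x y
    have h1 := dy F x y
    have h2 : HasDerivAt (fun t => MvPolynomial.eval (emb (x, t)) F)
        (B.eval x * (m * y ^ (m - 1)) + c * ((8 : ℕ) * y ^ 7)) y := by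
      have h3 := (((hasDerivAt_pow m y).const_mul (B.eval x)).const_add (A.eval x)).add
        ((hasDerivAt_pow 8 y).const_mul c)
      refine h3.congr_of_eventuallyEq (Filter.Eventually.of_forall fun t => ?_)
      simp only [Pi.add_apply]
      exact hG x t
    rw [h1.unique h2]
    push_cast
    ring
  have hCr : ∀ x y, Cri m A B c x y ↔ MvPolynomial.eval (emb (x, y)) F = 0 ∧
      MvPolynomial.eval (emb (x, y)) (MvPolynomial.pderiv 1 F) = 0 := by
    intro x y
    rw [hG, hy]
    exact Iff.rfl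
  have hRg : Rg m A B c := by
    intro x y h h1
    obtain ⟨h2, h4⟩ := (hCr x y).1 h
    exact reg hF hN x y h2 ⟨by rw [hx]; exact h1, h4⟩
  have hA0 : A ≠ 0 := by
    intro h
    apply hRg 0 0
    · refine ⟨?_, ?_⟩
      · rw [h]
        simp only [Polynomial.eval_zero]
        rw [zero_pow (by omega), zero_pow (by norm_num)]
        ring
      · rw [zero_pow (by omega), zero_pow (by norm_num)]
        ring
    · rw [h]
      simp only [Polynomial.derivative_zero, Polynomial.eval_zero]
      rw [zero_pow (by omega)]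
      ring
  have hfin : ∀ x, {y | MvPolynomial.eval (emb (x, y)) F = 0}.Finite := by
    intro x
    obtain ⟨f, hf⟩ : ∃ f : Polynomial ℝ, f = Polynomial.C (A.eval x) +
      Polynomial.C (B.eval x) * Polynomial.X ^ m + Polynomial.C c * Polynomial.X ^ 8 := ⟨_, rfl⟩
    have hf0 : f ≠ 0 := by
      intro h
      have h1 : f.coeff 8 = 0 := by rw [h]; simp
      rw [hf] at h1
      simp only [Polynomial.coeff_add, Polynomial.coeff_C_mul, Polynomial.coeff_X_pow,
        Polynomial.coeff_C] at h1
      rw [if_neg (by norm_num), if_neg (by omega)] at h1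
      simp at h1
      exact hc h1
    refine (f.roots.toFinset.finite_toSet).subset fun y hy => ?_
    rw [Finset.mem_coe, Multiset.mem_toFinset, Polynomial.mem_roots hf0, Polynomial.IsRoot.def, hf]
    simp only [Polynomial.eval_add, Polynomial.eval_mul, Polynomial.eval_C, Polynomial.eval_pow,
      Polynomial.eval_X]
    rw [← hG]
    exact hy
  -- the pieces at infinity
  obtain ⟨J, hJ⟩ : ∃ J : Finset (Fin k), ∀ i, i ∈ J ↔ ∃ v ∈ C i, v 2 = 0 :=
    ⟨Finset.univ.filter fun i => ∃ v ∈ C i, v 2 = 0, fun i => by simp⟩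
  have hJc : J.card ≤ S.card + 2 := by
    have hroot := roots_tri m (S.card + 1) e S hS le_rfl (a 8) (b (8 - m)) c hc (by omega) hm7
      (hsame' (b (8 - m)) c hc)
    refine le_trans ?_ hroot
    have hch : ∀ i : Fin k, ∃ v : Fin 3 → ℝ, i ∈ J → v ∈ C i ∧ v 2 = 0 := by
      intro i
      by_cases h : i ∈ J
      · obtain ⟨v, h1, h2⟩ := (hJ i).1 h
        exact ⟨v, fun _ => ⟨h1, h2⟩⟩
      · exact ⟨0, fun h' => absurd h' h⟩
    choose w hw using hch
    have hev : ∀ v : Fin 3 → ℝ, v 2 = 0 → MvPolynomial.eval v F =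
        a 8 * v 0 ^ 8 + b (8 - m) * v 0 ^ (8 - m) * v 1 ^ m + c * v 1 ^ 8 := by
      intro v h2
      rw [hv, h2, Finset.sum_eq_single 8, Finset.sum_eq_single (8 - m)]
      · simp
      · intro i hi hne
        rw [Finset.mem_range] at hi
        rw [zero_pow (by omega), mul_zero]
      · intro h
        exact absurd (Finset.mem_range.2 (by omega)) h
      · intro i hi hne
        rw [Finset.mem_range] at hi
        rw [zero_pow (by omega), mul_zero]
      · intro h
        exact absurd (Finset.mem_range.2 (by omega)) h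
    have hz : ∀ i ∈ J, MvPolynomial.eval (w i) F = 0 ∧ w i ≠ 0 := by
      intro i hi
      have : w i ∈ realCone F := by
        rw [← hun]
        exact Set.mem_iUnion.2 ⟨i, (hw i hi).1⟩
      exact ⟨this.2, this.1⟩
    have hw0 : ∀ i ∈ J, w i 0 ≠ 0 := by
      intro i hi h0
      have h1 := (hz i hi).1
      rw [hev _ (hw i hi).2, h0, zero_pow (by norm_num), zero_pow (by omega)] at h1
      have h2 : w i 1 ^ 8 = 0 := by
        have : c * w i 1 ^ 8 = 0 := by linear_combination h1
        rcases mul_eq_zero.1 this with h | h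
        · exact absurd h hc
        · exact h
      have h3 : w i 1 = 0 := pow_eq_zero_iff (by norm_num) |>.1 h2
      apply (hz i hi).2
      funext j
      fin_cases j
      · exact h0
      · exact h3
      · exact (hw i hi).2
    apply Finset.card_le_card_of_injOn (fun i => w i 1 / w i 0)
    · intro i hi
      have hi' : i ∈ J := hi
      have hne := hw0 i hi'
      rw [Finset.mem_coe, Multiset.mem_toFinset, Polynomial.mem_roots, Polynomial.IsRoot.def]
      · simp only [Polynomial.eval_add, Polynomial.eval_mul, Polynomial.eval_C, Polynomial.eval_pow,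
          Polynomial.eval_X]
        have h1 := (hz i hi').1
        rw [hev _ (hw i hi').2] at h1
        have h2 : w i 0 ^ 8 = w i 0 ^ (8 - m) * w i 0 ^ m := by
          rw [← pow_add]
          congr 1
          omega
        have h3 : a 8 + b (8 - m) * (w i 1 / w i 0) ^ m + c * (w i 1 / w i 0) ^ 8 =
            (a 8 * w i 0 ^ 8 + b (8 - m) * w i 0 ^ (8 - m) * w i 1 ^ m + c * w i 1 ^ 8) /
              w i 0 ^ 8 := by
          have e1 : b (8 - m) * (w i 1 / w i 0) ^ m =
              b (8 - m) * w i 0 ^ (8 - m) * w i 1 ^ m / w i 0 ^ 8 := by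
            rw [h2, div_pow]
            field_simp
          rw [e1, div_pow]
          field_simp
        rw [h3, h1, zero_div]
      · intro h
        have h1 := congrArg (fun f => Polynomial.coeff f 8) h
        simp only [Polynomial.coeff_add, Polynomial.coeff_C_mul, Polynomial.coeff_X_pow,
          Polynomial.coeff_C, Polynomial.coeff_zero] at h1
        rw [if_neg (by norm_num), if_neg (by omega)] at h1
        simp at h1
        exact hc h1
    · intro i hi j hj h
      have hi' : i ∈ J := hi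
      have hj' : j ∈ J := hj
      have hni := hw0 i hi'
      have hnj := hw0 j hj'
      by_contra hij
      have h1 : (w j 0 / w i 0) • w i = w j := by
        have h' : w i 1 / w i 0 = w j 1 / w j 0 := h
        funext l
        fin_cases l
        · show w j 0 / w i 0 * w i 0 = w j 0
          field_simp
        · show w j 0 / w i 0 * w i 1 = w j 1
          have : w j 0 / w i 0 * w i 1 = w j 0 * (w i 1 / w i 0) := by field_simp
          rw [this, h']
          field_simp
        · show w j 0 / w i 0 * w i 2 = w j 2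
          rw [(hw i hi').2, (hw j hj').2, mul_zero]
      have h2 := hsc i (w i) (hw i hi').1 (w j 0 / w i 0) (div_ne_zero hnj hni)
      rw [h1] at h2
      exact Set.disjoint_left.1 (hdis i j hij) h2 (hw j hj').1
  -- the compact pieces
  have hK := fun i : {i : Fin k // i ∉ J} => cpt hne hdis hun hsc hcl i.1 (fun v hvi h =>
    i.2 ((hJ i.1).2 ⟨v, hvi, h⟩))
  obtain ⟨T, hTc, hTm⟩ := hT A B c hc hAd hBd hRg
  have hcount := count (fun i : {i : Fin k // i ∉ J} => emb ⁻¹' (C i.1))
    (fun i j hij => (hdis i.1 j.1 (fun h => hij (Subtype.ext h))).preimage emb) (Cri m A B c)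
    (fun i => by
      obtain ⟨h1, h2, h3, h4⟩ := hK i
      obtain ⟨p, hp, q, hq, hpq, hp1, hq1⟩ := two_crit (fun x y => MvPolynomial.eval (emb (x, y)) F)
        (fun x y => MvPolynomial.eval (emb (x, y)) (MvPolynomial.pderiv 0 F))
        (fun x y => MvPolynomial.eval (emb (x, y)) (MvPolynomial.pderiv 1 F)) hGc (dx F) (dy F)
        (fun x y h => reg hF hN x y h) hfin (emb ⁻¹' (C i.1)) h1 h2 h3 h4
      exact ⟨p, hp, q, hq, hpq, (hCr p.1 p.2).2 ⟨h3 p hp, hp1⟩, (hCr q.1 q.2).2 ⟨h3 q hq, hq1⟩⟩)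
    e (hsame A B c hc) A.roots.toFinset T (fun x h => by
      rw [Multiset.mem_toFinset, Polynomial.mem_roots hA0, Polynomial.IsRoot.def]
      have h1 := h.1
      rw [zero_pow (by omega), zero_pow (by norm_num)] at h1
      linear_combination h1) hTm S hS
  have hAc : A.roots.toFinset.card ≤ 8 :=
    (Multiset.toFinset_card_le _).trans ((Polynomial.card_roots' A).trans hAd)
  have hcard : k = J.card + Fintype.card {i : Fin k // i ∉ J} := by
    rw [Fintype.card_subtype_compl, Fintype.card_fin, Fintype.card_coe]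
    have : J.card ≤ k := by simpa using Finset.card_le_univ J
    omega
  have hTS : T.card * S.card ≤ D * S.card := Nat.mul_le_mul_right _ hTc
  omega

end Pool.Agent.L7h69.TO
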