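import Pool.Agent.L7h60.OC.Nsp
import Pool.Agent.L7h77.OC.Trans

/-! Octics with three terms in one variable: local analysis and compact pieces. -/

set_option autoImplicit false

open MvPolynomial Filter Topology

namespace Pool.Agent.L7h69.TO

open Pool.Agent.L7h17.OC

/-- local continuation of a piece of the curve `G = 0` -/
theorem half (G : ℝ → ℝ → ℝ) (hG : Continuous fun p : ℝ × ℝ => G p.1 p.2) (K : Set (ℝ × ℝ))
    (hZ : ∀ p ∈ K, G p.1 p.2 = 0) (hcl : IsClosed ({p : ℝ × ℝ | G p.1 p.2 = 0} \ K)) (x₀ y₀ : ℝ)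
    (hp : (x₀, y₀) ∈ K) (d : ℝ) (hd : HasDerivAt (fun x => G x y₀) d x₀) (hd0 : d ≠ 0) (δ : ℝ)
    (hδ : 0 < δ) : ∃ ε : ℝ, 0 < ε ∧ ∀ y : ℝ, |y - y₀| < ε → ∃ x : ℝ, |x - x₀| < δ ∧ (x, y) ∈ K := by
  have hp0 : G x₀ y₀ = 0 := hZ _ hp
  have hnot : (x₀, y₀) ∈ ({p : ℝ × ℝ | G p.1 p.2 = 0} \ K)ᶜ := fun h => h.2 hp
  obtain ⟨r, hr, hball⟩ := Metric.isOpen_iff.1 hcl.isOpen_compl _ hnot
  have hs := hd.tendsto_slope.mul_const d
  have hpos : 0 < d * d := mul_self_pos.2 hd0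
  have hev := hs.eventually (eventually_gt_nhds hpos)
  rw [eventually_nhdsWithin_iff, Metric.eventually_nhds_iff] at hev
  obtain ⟨η, hη, hsl⟩ := hev
  obtain ⟨s, hsdef⟩ : ∃ s, s = min η (min δ r) / 2 := ⟨_, rfl⟩
  have hs0 : 0 < s := by rw [hsdef]; positivity
  have hsη : s < η := by
    have := min_le_left η (min δ r)
    linarith
  have hsδ : s < δ := by
    have := (min_le_right η (min δ r)).trans (min_le_left _ _)
    linarith
  have hsr : s < r := by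
    have := (min_le_right η (min δ r)).trans (min_le_right _ _)
    linarith
  have h2 := @hsl (x₀ + s) (by rw [Real.dist_eq, add_sub_cancel_left, abs_of_pos hs0]; exact hsη)
    (by simp [hs0.ne'])
  have h1 := @hsl (x₀ - s) (by
    rw [Real.dist_eq, sub_sub_cancel_left, abs_neg, abs_of_pos hs0]; exact hsη)
    (by simp [hs0.ne'])
  rw [slope_def_field, hp0, sub_zero, add_sub_cancel_left] at h2
  rw [slope_def_field, hp0, sub_zero, show x₀ - s - x₀ = -s by ring] at h1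
  have g2 : 0 < G (x₀ + s) y₀ * d := by
    have := mul_pos h2 hs0
    have e : G (x₀ + s) y₀ / s * d * s = G (x₀ + s) y₀ * d := by field_simp
    rwa [e] at this
  have g1 : G (x₀ - s) y₀ * d < 0 := by
    have := mul_pos h1 hs0
    have e : G (x₀ - s) y₀ / -s * d * s = -(G (x₀ - s) y₀ * d) := by
      rw [div_neg]
      field_simp
    rw [e] at this
    linarith
  have hneg : G (x₀ - s) y₀ * G (x₀ + s) y₀ < 0 := by
    by_contra hc
    push Not at hc
    have h5 := mul_neg_of_neg_of_pos g1 g2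
    have h6 : (G (x₀ - s) y₀ * d) * (G (x₀ + s) y₀ * d) =
        (G (x₀ - s) y₀ * G (x₀ + s) y₀) * (d * d) := by ring
    rw [h6] at h5
    have h7 := mul_nonneg hc hpos.le
    linarith
  have c1 : Continuous fun y : ℝ => G (x₀ - s) y :=
    hG.comp (continuous_const.prodMk continuous_id)
  have c2 : Continuous fun y : ℝ => G (x₀ + s) y :=
    hG.comp (continuous_const.prodMk continuous_id)
  have hev2 := ((c1.mul c2).tendsto y₀).eventually (eventually_lt_nhds hneg)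
  rw [Metric.eventually_nhds_iff] at hev2
  obtain ⟨ε, hε, hy⟩ := hev2
  refine ⟨min ε r, lt_min hε hr, fun y hyy => ?_⟩
  have hy1 : |y - y₀| < ε := hyy.trans_le (min_le_left _ _)
  have hy2 : |y - y₀| < r := hyy.trans_le (min_le_right _ _)
  have h8 := @hy y (by rw [Real.dist_eq]; exact hy1)
  have h9 : (0 : ℝ) ∈ Set.uIcc (G (x₀ - s) y) (G (x₀ + s) y) := by
    rw [Set.mem_uIcc]
    rcases mul_neg_iff.1 h8 with ⟨ha, hb⟩ | ⟨ha, hb⟩
    · right; exact ⟨hb.le, ha.le⟩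
    · left; exact ⟨ha.le, hb.le⟩
  have c3 : Continuous fun x : ℝ => G x y := hG.comp (continuous_id.prodMk continuous_const)
  obtain ⟨x, hx, hx0⟩ := intermediate_value_uIcc c3.continuousOn h9
  have hxs : |x - x₀| ≤ s := by
    rw [Set.uIcc_of_le (by linarith), Set.mem_Icc] at hx
    rw [abs_le]
    constructor <;> linarith [hx.1, hx.2]
  refine ⟨x, lt_of_le_of_lt hxs hsδ, ?_⟩
  by_contra hK
  have h10 : (x, y) ∈ Metric.ball (x₀, y₀) r := by
    rw [Metric.mem_ball, Prod.dist_eq, max_lt_iff, Real.dist_eq, Real.dist_eq]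
    exact ⟨lt_of_le_of_lt hxs hsr, hy2⟩
  exact hball h10 ⟨hx0, hK⟩

theorem half' (G : ℝ → ℝ → ℝ) (hG : Continuous fun p : ℝ × ℝ => G p.1 p.2) (K : Set (ℝ × ℝ))
    (hZ : ∀ p ∈ K, G p.1 p.2 = 0) (hcl : IsClosed ({p : ℝ × ℝ | G p.1 p.2 = 0} \ K)) (x₀ y₀ : ℝ)
    (hp : (x₀, y₀) ∈ K) (d : ℝ) (hd : HasDerivAt (fun y => G x₀ y) d y₀) (hd0 : d ≠ 0) (δ : ℝ)
    (hδ : 0 < δ) : ∃ ε : ℝ, 0 < ε ∧ ∀ x : ℝ, |x - x₀| < ε → ∃ y : ℝ, |y - y₀| < δ ∧ (x, y) ∈ K := by
  have hcl' : IsClosed ({p : ℝ × ℝ | G p.2 p.1 = 0} \ (Prod.swap ⁻¹' K)) := by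
    have h1 : {p : ℝ × ℝ | G p.2 p.1 = 0} \ (Prod.swap ⁻¹' K) =
        Prod.swap ⁻¹' ({p : ℝ × ℝ | G p.1 p.2 = 0} \ K) := by
      ext q
      exact Iff.rfl
    rw [h1]
    exact hcl.preimage continuous_swap
  exact half (fun y x => G x y) (hG.comp continuous_swap) (Prod.swap ⁻¹' K)
    (fun q hq => hZ _ hq) hcl' y₀ x₀ (by simpa using hp) d hd hd0 δ hδ

/-- a compact piece has two critical points of the first projection -/
theorem two_crit (G Gx Gy : ℝ → ℝ → ℝ) (hG : Continuous fun p : ℝ × ℝ => G p.1 p.2)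
    (dx : ∀ x y, HasDerivAt (fun t => G t y) (Gx x y) x)
    (dy : ∀ x y, HasDerivAt (fun t => G x t) (Gy x y) y)
    (hreg : ∀ x y, G x y = 0 → ¬ (Gx x y = 0 ∧ Gy x y = 0)) (hfin : ∀ x, {y | G x y = 0}.Finite)
    (K : Set (ℝ × ℝ)) (hne : K.Nonempty) (hK : IsCompact K) (hZ : ∀ p ∈ K, G p.1 p.2 = 0)
    (hcl : IsClosed ({p : ℝ × ℝ | G p.1 p.2 = 0} \ K)) :
    ∃ p ∈ K, ∃ q ∈ K, p ≠ q ∧ Gy p.1 p.2 = 0 ∧ Gy q.1 q.2 = 0 := by
  obtain ⟨p, hp, hmin⟩ := hK.exists_isMinOn hne (f := Prod.fst) continuous_fst.continuousOn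
  obtain ⟨q, hq, hmax⟩ := hK.exists_isMaxOn hne (f := Prod.fst) continuous_fst.continuousOn
  have hp0 : Gy p.1 p.2 = 0 := by
    by_contra h
    obtain ⟨ε, hε, h1⟩ := half' G hG K hZ hcl p.1 p.2 hp _ (dy p.1 p.2) h 1 one_pos
    obtain ⟨y, _, hy⟩ := h1 (p.1 - ε / 2) (by rw [sub_sub_cancel_left, abs_neg, abs_of_pos (by positivity)]; linarith)
    have h2 : p.1 ≤ p.1 - ε / 2 := hmin hy
    linarith
  have hq0 : Gy q.1 q.2 = 0 := by
    by_contra h
    obtain ⟨ε, hε, h1⟩ := half' G hG K hZ hcl q.1 q.2 hq _ (dy q.1 q.2) h 1 one_pos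
    obtain ⟨y, _, hy⟩ := h1 (q.1 + ε / 2) (by rw [add_sub_cancel_left, abs_of_pos (by positivity)]; linarith)
    have h2 : q.1 + ε / 2 ≤ q.1 := hmax hy
    linarith
  refine ⟨p, hp, q, hq, ?_, hp0, hq0⟩
  intro hpq
  -- otherwise the piece is on a vertical line
  have hx : ∀ r ∈ K, r.1 = p.1 := by
    intro r hr
    have h1 : p.1 ≤ r.1 := hmin hr
    have h2 : r.1 ≤ q.1 := hmax hr
    rw [← hpq] at h2
    linarith
  have hgx : Gx p.1 p.2 ≠ 0 := fun h => hreg _ _ (hZ p hp) ⟨h, hp0⟩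
  obtain ⟨ε, hε, h1⟩ := half G hG K hZ hcl p.1 p.2 hp _ (dx p.1 p.2) hgx 1 one_pos
  apply Set.infinite_of_injective_forall_mem (f := fun n : ℕ => p.2 + ε / 2 / ((n : ℝ) + 1))
    (s := {y | G p.1 y = 0}) ?_ ?_ (hfin p.1)
  · intro n m hnm
    have h2 : ε / 2 / ((n : ℝ) + 1) = ε / 2 / ((m : ℝ) + 1) := by
      have := hnm
      simp only [add_right_inj] at this
      exact this
    rw [div_eq_div_iff (by positivity) (by positivity)] at h2
    have h4 := mul_left_cancel₀ (by positivity : ε / 2 ≠ 0) h2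
    have h3 : (n : ℝ) = m := by linarith
    exact_mod_cast h3
  · intro n
    have h2 : |p.2 + ε / 2 / ((n : ℝ) + 1) - p.2| < ε := by
      rw [add_sub_cancel_left, abs_of_pos (by positivity), div_lt_iff₀ (by positivity)]
      have : (0 : ℝ) ≤ n := Nat.cast_nonneg n
      nlinarith
    obtain ⟨x, _, hxK⟩ := h1 _ h2
    have h3 := hx _ hxK
    have h4 := hZ _ hxK
    simp only at h3 h4
    rw [h3] at h4
    exact h4

/-- the point of the chart `z = 1` -/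
def emb (p : ℝ × ℝ) : Fin 3 → ℝ := ![p.1, p.2, 1]

theorem emb_two (p : ℝ × ℝ) : emb p 2 = 1 := rfl

theorem emb_ne (p : ℝ × ℝ) : emb p ≠ 0 := by
  intro h
  have := congrFun h 2
  rw [emb_two] at this
  exact one_ne_zero this

theorem emb_cont : Continuous emb := by
  unfold emb
  refine continuous_pi fun i => ?_
  fin_cases i
  · exact continuous_fst
  · exact continuous_snd
  · exact continuous_const

/-- the pieces without points at infinity are compact (adapted from helper76, project OS) -/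
theorem cpt {F : MvPolynomial (Fin 3) ℝ} {k : ℕ} {C : Fin k → Set (Fin 3 → ℝ)}
    (hne : ∀ i, (C i).Nonempty) (hdis : ∀ i j, i ≠ j → Disjoint (C i) (C j))
    (hun : (⋃ i, C i) = realCone F) (hsc : ∀ i, ∀ v ∈ C i, ∀ c : ℝ, c ≠ 0 → c • v ∈ C i)
    (hcl : ∀ i, ∃ K : Set (Fin 3 → ℝ), IsClosed K ∧ C i = K ∩ {v | v ≠ 0}) (i : Fin k)
    (hi : ∀ v ∈ C i, v 2 ≠ 0) :
    (emb ⁻¹' (C i)).Nonempty ∧ IsCompact (emb ⁻¹' (C i)) ∧
      (∀ p ∈ emb ⁻¹' (C i), eval (emb p) F = 0) ∧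
      IsClosed ({p : ℝ × ℝ | eval (emb p) F = 0} \ (emb ⁻¹' (C i))) := by
  have hmem : ∀ p, (∃ j, emb p ∈ C j) ↔ eval (emb p) F = 0 := by
    intro p
    rw [← Set.mem_iUnion, hun]
    exact ⟨fun h => h.2, fun h => ⟨emb_ne p, h⟩⟩
  have hclosed : ∀ j, IsClosed (emb ⁻¹' (C j)) := by
    intro j
    obtain ⟨K', hK', e⟩ := hcl j
    have : emb ⁻¹' (C j) = emb ⁻¹' K' := by
      rw [e]
      ext p
      exact ⟨fun h => h.1, fun h => ⟨h, emb_ne p⟩⟩
    rw [this]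
    exact hK'.preimage emb_cont
  have hnon : (emb ⁻¹' (C i)).Nonempty := by
    obtain ⟨v, hv⟩ := hne i
    have h2 := hi v hv
    refine ⟨((v 2)⁻¹ * v 0, (v 2)⁻¹ * v 1), ?_⟩
    have h3 := hsc i v hv (v 2)⁻¹ (inv_ne_zero h2)
    have h4 : emb ((v 2)⁻¹ * v 0, (v 2)⁻¹ * v 1) = (v 2)⁻¹ • v := by
      funext j
      fin_cases j
      · rfl
      · rfl
      · show (1 : ℝ) = (v 2)⁻¹ * v 2
        rw [inv_mul_cancel₀ h2]
    rw [Set.mem_preimage, h4]
    exact h3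
  refine ⟨hnon, ?_, fun p hp => (hmem p).1 ⟨i, hp⟩, ?_⟩
  · obtain ⟨K', hK', e⟩ := hcl i
    have hS : IsCompact (C i ∩ Metric.sphere (0 : Fin 3 → ℝ) 1) := by
      have : C i ∩ Metric.sphere (0 : Fin 3 → ℝ) 1 = K' ∩ Metric.sphere (0 : Fin 3 → ℝ) 1 := by
        rw [e]
        ext v
        refine ⟨fun h => ⟨h.1.1, h.2⟩, fun h => ⟨⟨h.1, ?_⟩, h.2⟩⟩
        rintro rfl
        have := h.2
        simp at this
      rw [this]
      exact (isCompact_sphere _ _).inter_left hK'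
    have hnorm : ∀ p, emb p ∈ C i → ‖emb p‖⁻¹ • emb p ∈ C i ∩ Metric.sphere (0 : Fin 3 → ℝ) 1 := by
      intro p hp
      have h1 : ‖emb p‖ ≠ 0 := norm_ne_zero_iff.2 (emb_ne p)
      refine ⟨hsc i _ hp _ (inv_ne_zero h1), ?_⟩
      rw [mem_sphere_zero_iff_norm, norm_smul, norm_inv, norm_norm, inv_mul_cancel₀ h1]
    obtain ⟨q, hq⟩ := hnon
    obtain ⟨w, hw, hmin⟩ := hS.exists_isMinOn ⟨_, hnorm q hq⟩
      (f := fun v : Fin 3 → ℝ => |v 2|) (continuous_abs.comp (continuous_apply 2)).continuousOn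
    have hd : 0 < |w 2| := abs_pos.2 (hi w hw.1)
    have hb : ∀ p, emb p ∈ C i → ‖emb p‖ ≤ |w 2|⁻¹ := by
      intro p hp
      have h1 : 0 < ‖emb p‖ := norm_pos_iff.2 (emb_ne p)
      have h2 : |w 2| ≤ |(‖emb p‖⁻¹ • emb p) 2| := hmin (hnorm p hp)
      have h3 : (‖emb p‖⁻¹ • emb p) 2 = ‖emb p‖⁻¹ := by
        rw [Pi.smul_apply, emb_two, smul_eq_mul, mul_one]
      rw [h3, abs_of_pos (inv_pos.2 h1)] at h2
      exact (le_inv_comm₀ hd h1).1 h2
    refine Metric.isCompact_of_isClosed_isBounded (hclosed i) ?_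
    refine (Metric.isBounded_closedBall (x := (0 : ℝ × ℝ)) (r := |w 2|⁻¹)).subset fun p hp => ?_
    rw [mem_closedBall_zero_iff, Prod.norm_def]
    refine max_le ?_ ?_
    · exact (norm_le_pi_norm (emb p) 0).trans (hb p hp)
    · exact (norm_le_pi_norm (emb p) 1).trans (hb p hp)
  · have h1 : {p : ℝ × ℝ | eval (emb p) F = 0} \ emb ⁻¹' (C i) =
        ⋃ j ∈ {j : Fin k | j ≠ i}, emb ⁻¹' (C j) := by
      ext p
      rw [Set.mem_iUnion₂]
      constructor
      · rintro ⟨h, h'⟩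
        obtain ⟨j, hj⟩ := (hmem p).2 h
        exact ⟨j, fun e => h' (e ▸ hj), hj⟩
      · rintro ⟨j, hj, hp⟩
        exact ⟨(hmem p).1 ⟨j, hp⟩, fun h => Set.disjoint_left.1 (hdis j i hj) hp h⟩
    rw [h1]
    exact (Set.toFinite _).isClosed_biUnion fun j _ => hclosed j

/-- a real singular point is a singular point -/
theorem reg {F : MvPolynomial (Fin 3) ℝ} (hF : F.IsHomogeneous 8) (hN : Nonsing F) (x y : ℝ)
    (h : eval (emb (x, y)) F = 0) : ¬ (eval (emb (x, y)) (pderiv 0 F) = 0 ∧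
      eval (emb (x, y)) (pderiv 1 F) = 0) := by
  rintro ⟨h0, h1⟩
  have hE := congrArg (eval (emb (x, y))) hF.sum_X_mul_pderiv
  rw [map_nsmul, h, smul_zero, Fin.sum_univ_three] at hE
  simp only [map_add, map_mul, eval_X] at hE
  rw [h0, h1, emb_two, mul_zero, mul_zero, zero_add, zero_add, one_mul] at hE
  have key : ∀ P : MvPolynomial (Fin 3) ℝ, aeval (fun i => ((emb (x, y) i : ℝ) : ℂ)) P =
      ((eval (emb (x, y)) P : ℝ) : ℂ) := by
    intro P
    exact MvPolynomial.aeval_algebraMap_apply ℂ (emb (x, y)) P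
  refine hN (fun i => ((emb (x, y) i : ℝ) : ℂ)) (fun h2 => ?_) ⟨?_, fun i => ?_⟩
  · have := congrFun h2 2
    simp [emb_two] at this
  · rw [key, h]
    simp
  · rw [key]
    fin_cases i
    · show ((eval (emb (x, y)) (pderiv 0 F) : ℝ) : ℂ) = 0
      rw [h0]
      simp
    · show ((eval (emb (x, y)) (pderiv 1 F) : ℝ) : ℂ) = 0
      rw [h1]
      simp
    · show ((eval (emb (x, y)) (pderiv 2 F) : ℝ) : ℂ) = 0
      rw [hE]
      simp

/-- the partial derivatives in the chart -/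
theorem dx (F : MvPolynomial (Fin 3) ℝ) (x y : ℝ) :
    HasDerivAt (fun t => eval (emb (t, y)) F) (eval (emb (x, y)) (pderiv 0 F)) x := by
  have h := Pool.Agent.L7h60.OC.chain_rule F (γ := fun t => emb (t, y)) (γ' := ![1, 0, 0])
    (x := x) (by
      intro i
      fin_cases i
      · exact hasDerivAt_id x
      · exact hasDerivAt_const x _
      · exact hasDerivAt_const x _)
  rw [Fin.sum_univ_three] at h
  simpa using h

theorem dy (F : MvPolynomial (Fin 3) ℝ) (x y : ℝ) :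
    HasDerivAt (fun t => eval (emb (x, t)) F) (eval (emb (x, y)) (pderiv 1 F)) y := by
  have h := Pool.Agent.L7h60.OC.chain_rule F (γ := fun t => emb (x, t)) (γ' := ![0, 1, 0])
    (x := y) (by
      intro i
      fin_cases i
      · exact hasDerivAt_const y _
      · exact hasDerivAt_id y
      · exact hasDerivAt_const y _)
  rw [Fin.sum_univ_three] at h
  simpa using h

end Pool.Agent.L7h69.TO
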