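import Pool.Agent.L7h69.TO.Base

/-! Octics with three terms in one variable: counting. -/

set_option autoImplicit false

open Filter Topology

namespace Pool.Agent.L7h69.TO

open Polynomial

/-- a label of the sign -/
noncomputable def sg (e : Bool) (y : ℝ) : Fin 3 :=
  if y = 0 then 0 else if e = true ∧ y < 0 then 2 else 1

lemma sg_zero (e : Bool) (y : ℝ) : sg e y = 0 ↔ y = 0 := by
  unfold sg
  split_ifs with h1 h2 <;> simp [h1]

lemma sg_true {y y' : ℝ} (h : sg true y = sg true y') (h0 : y ≠ 0) : y' ≠ -y := by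
  unfold sg at h
  rintro rfl
  rw [if_neg h0, if_neg (neg_ne_zero.2 h0)] at h
  rcases lt_or_gt_of_ne h0 with h1 | h1
  · rw [if_pos ⟨rfl, h1⟩, if_neg (by rintro ⟨_, h2⟩; linarith)] at h
    exact absurd h (by decide)
  · rw [if_neg (by rintro ⟨_, h2⟩; linarith), if_pos ⟨rfl, by linarith⟩] at h
    exact absurd h (by decide)

lemma sg_mem_true (y : ℝ) (h : y ≠ 0) : sg true y ∈ ({1, 2} : Finset (Fin 3)) := by
  unfold sg
  rw [if_neg h]
  split_ifs <;> simp

lemma sg_mem_false (y : ℝ) (h : y ≠ 0) : sg false y ∈ ({1} : Finset (Fin 3)) := by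
  unfold sg
  rw [if_neg h]
  simp

lemma sq_eq {y y' : ℝ} (h : y ^ 2 = y' ^ 2) (hs : sg true y = sg true y') (h0 : y ≠ 0) : y = y' := by
  rcases sq_eq_sq_iff_eq_or_eq_neg.1 h with h1 | h1
  · exact h1
  · exact absurd (by rw [h1, neg_neg]) (sg_true hs h0)

lemma four_eq {y y' : ℝ} (h : y ^ 4 = y' ^ 4) (hs : sg true y = sg true y') (h0 : y ≠ 0) :
    y = y' := by
  apply sq_eq ?_ hs h0
  have h1 : (y ^ 2 - y' ^ 2) * (y ^ 2 + y' ^ 2) = 0 := by ring_nf; linarith
  rcases mul_eq_zero.1 h1 with h2 | h2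
  · linarith
  · exfalso
    have : 0 < y ^ 2 := by positivity
    nlinarith [sq_nonneg y']

lemma three_eq {y y' : ℝ} (h : y ^ 3 = y' ^ 3) : y = y' :=
  (Odd.strictMono_pow (by decide : Odd 3)).injective h

/-- each piece has two critical points, so the pieces are at most half as many -/
theorem count {ι : Type} [Fintype ι] (K : ι → Set (ℝ × ℝ))
    (hdis : ∀ i j, i ≠ j → Disjoint (K i) (K j)) (Cr : ℝ → ℝ → Prop)
    (h2 : ∀ i, ∃ p ∈ K i, ∃ q ∈ K i, p ≠ q ∧ Cr p.1 p.2 ∧ Cr q.1 q.2) (e : Bool)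
    (hsame : ∀ x y y', y ≠ 0 → y' ≠ 0 → Cr x y → Cr x y' → sg e y = sg e y' → y = y')
    (T₀ T : Finset ℝ) (hT₀ : ∀ x, Cr x 0 → x ∈ T₀) (hT : ∀ x y, y ≠ 0 → Cr x y → x ∈ T)
    (S : Finset (Fin 3)) (hS : ∀ y, y ≠ 0 → sg e y ∈ S) :
    2 * Fintype.card ι ≤ T₀.card + T.card * S.card := by
  classical
  choose p hp q hq hne hcp hcq using h2
  obtain ⟨φ, hφ⟩ : ∃ φ : ι × Bool → ℝ × ℝ, ∀ s, φ s = if s.2 = true then p s.1 else q s.1 :=
    ⟨_, fun _ => rfl⟩
  have hmem : ∀ s, φ s ∈ K s.1 := by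
    intro s
    rw [hφ]
    split_ifs
    · exact hp _
    · exact hq _
  have hcr : ∀ s, Cr (φ s).1 (φ s).2 := by
    intro s
    rw [hφ]
    split_ifs
    · exact hcp _
    · exact hcq _
  have hinj : Function.Injective φ := by
    rintro ⟨i, b⟩ ⟨j, b'⟩ h
    have hij : i = j := by
      by_contra hij
      exact Set.disjoint_left.1 (hdis i j hij) (hmem (i, b)) (h ▸ hmem (j, b'))
    subst hij
    rw [hφ, hφ] at h
    rcases b with _ | _ <;> rcases b' with _ | _
    · rfl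
    · exact absurd (by simpa using h.symm) (hne i)
    · exact absurd (by simpa using h) (hne i)
    · rfl
  have hcard : Fintype.card (ι × Bool) ≤ (T₀ ×ˢ ({0} : Finset (Fin 3)) ∪ T ×ˢ S).card := by
    rw [← Finset.card_univ]
    apply Finset.card_le_card_of_injOn (fun s => ((φ s).1, sg e (φ s).2))
    · intro s _
      have hc := hcr s
      rw [Finset.mem_coe, Finset.mem_union, Finset.mem_product, Finset.mem_product]
      by_cases h0 : (φ s).2 = 0
      · left
        rw [h0] at hc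
        refine ⟨hT₀ _ hc, ?_⟩
        rw [Finset.mem_singleton]
        exact (sg_zero e _).2 h0
      · right
        exact ⟨hT _ _ h0 hc, hS _ h0⟩
    · intro s _ s' _ h
      rw [Prod.mk.injEq] at h
      apply hinj
      refine Prod.ext h.1 ?_
      by_cases h0 : (φ s).2 = 0
      · have h1 := (sg_zero e _).2 h0
        rw [h.2] at h1
        rw [h0, (sg_zero e _).1 h1]
      · have h0' : (φ s').2 ≠ 0 := by
          intro h1
          have h2 := (sg_zero e _).2 h1
          rw [← h.2] at h2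
          exact h0 ((sg_zero e _).1 h2)
        have hc' := hcr s'
        rw [← h.1] at hc'
        exact hsame _ _ _ h0 h0' (hcr s) hc' h.2
  rw [Fintype.card_prod, Fintype.card_bool] at hcard
  have h1 := hcard.trans (Finset.card_union_le _ _)
  rw [Finset.card_product, Finset.card_product, Finset.card_singleton, mul_one] at h1
  omega

lemma fin_T (W : ℝ[X]) (N : ℕ) (hW : W.natDegree ≤ N) (Cr : ℝ → ℝ → Prop)
    (h1 : ∀ x y, y ≠ 0 → Cr x y → W.eval x = 0)
    (h2 : ∀ x y, y ≠ 0 → Cr x y → W.derivative.eval x ≠ 0) :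
    ∃ T : Finset ℝ, T.card ≤ N ∧ ∀ x y, y ≠ 0 → Cr x y → x ∈ T := by
  classical
  by_cases h : ∃ x y, y ≠ 0 ∧ Cr x y
  · obtain ⟨x₀, y₀, hy₀, hc⟩ := h
    have hW0 : W ≠ 0 := by
      rintro rfl
      exact h2 _ _ hy₀ hc (by simp)
    refine ⟨W.roots.toFinset, (Multiset.toFinset_card_le _).trans ((card_roots' W).trans hW),
      fun x y hy hxy => ?_⟩
    rw [Multiset.mem_toFinset, mem_roots hW0]
    exact h1 x y hy hxy
  · push Not at h
    exact ⟨∅, by simp, fun x y hy hxy => absurd hxy (h x y hy)⟩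

/-- the critical points in the chart -/
def Cri (m : ℕ) (A B : ℝ[X]) (c x y : ℝ) : Prop :=
  A.eval x + B.eval x * y ^ m + c * y ^ 8 = 0 ∧ m * B.eval x * y ^ (m - 1) + 8 * c * y ^ 7 = 0

def Rg (m : ℕ) (A B : ℝ[X]) (c : ℝ) : Prop :=
  ∀ x y, Cri m A B c x y → A.derivative.eval x + B.derivative.eval x * y ^ m ≠ 0

section cases

variable {A B : ℝ[X]} {c x y : ℝ}

lemma c4 (hy : y ≠ 0) (h : Cri 4 A B c x y) : B.eval x = -2 * c * y ^ 4 ∧ A.eval x = c * y ^ 8 := by
  obtain ⟨h1, h2⟩ := h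
  norm_num at h2
  have h3 : y ^ 3 * (B.eval x + 2 * c * y ^ 4) = 0 := by linear_combination h2 / 4
  rcases mul_eq_zero.1 h3 with h4 | h4
  · exact absurd h4 (pow_ne_zero 3 hy)
  · have h5 : B.eval x = -2 * c * y ^ 4 := by linarith
    refine ⟨h5, ?_⟩
    rw [h5] at h1
    linear_combination h1

lemma c5 (hy : y ≠ 0) (h : Cri 5 A B c x y) :
    B.eval x = -(8 / 5) * c * y ^ 3 ∧ A.eval x = 3 / 5 * c * y ^ 8 := by
  obtain ⟨h1, h2⟩ := h
  norm_num at h2
  have h3 : y ^ 4 * (B.eval x + 8 / 5 * c * y ^ 3) = 0 := by linear_combination h2 / 5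
  rcases mul_eq_zero.1 h3 with h4 | h4
  · exact absurd h4 (pow_ne_zero 4 hy)
  · have h5 : B.eval x = -(8 / 5) * c * y ^ 3 := by linarith
    refine ⟨h5, ?_⟩
    rw [h5] at h1
    linear_combination h1

lemma c6 (hy : y ≠ 0) (h : Cri 6 A B c x y) :
    B.eval x = -(4 / 3) * c * y ^ 2 ∧ A.eval x = 1 / 3 * c * y ^ 8 := by
  obtain ⟨h1, h2⟩ := h
  norm_num at h2
  have h3 : y ^ 5 * (B.eval x + 4 / 3 * c * y ^ 2) = 0 := by linear_combination h2 / 6
  rcases mul_eq_zero.1 h3 with h4 | h4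
  · exact absurd h4 (pow_ne_zero 5 hy)
  · have h5 : B.eval x = -(4 / 3) * c * y ^ 2 := by linarith
    refine ⟨h5, ?_⟩
    rw [h5] at h1
    linear_combination h1

lemma c7 (hy : y ≠ 0) (h : Cri 7 A B c x y) :
    B.eval x = -(8 / 7) * c * y ∧ A.eval x = 1 / 7 * c * y ^ 8 := by
  obtain ⟨h1, h2⟩ := h
  norm_num at h2
  have h3 : y ^ 6 * (B.eval x + 8 / 7 * c * y) = 0 := by linear_combination h2 / 7
  rcases mul_eq_zero.1 h3 with h4 | h4
  · exact absurd h4 (pow_ne_zero 6 hy)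
  · have h5 : B.eval x = -(8 / 7) * c * y := by linarith
    refine ⟨h5, ?_⟩
    rw [h5] at h1
    linear_combination h1

end cases

lemma T4 {A B : ℝ[X]} {c : ℝ} (hc : c ≠ 0) (hA : A.natDegree ≤ 8) (hB : B.natDegree ≤ 4)
    (hR : Rg 4 A B c) : ∃ T : Finset ℝ, T.card ≤ 8 ∧ ∀ x y, y ≠ 0 → Cri 4 A B c x y → x ∈ T := by
  refine fin_T (C (4 * c) * A - B ^ 2) 8 ?_ _ ?_ ?_
  · refine (natDegree_sub_le _ _).trans (max_le ?_ ?_)
    · exact (natDegree_C_mul_le _ _).trans hA
    · exact natDegree_pow_le.trans (by omega)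
  · intro x y hy h
    obtain ⟨h1, h2⟩ := c4 hy h
    simp only [eval_sub, eval_mul, eval_pow, eval_C]
    rw [h1, h2]
    ring
  · intro x y hy h
    obtain ⟨h1, h2⟩ := c4 hy h
    have h3 : (C (4 * c) * A - B ^ 2).derivative.eval x =
        4 * c * (A.derivative.eval x + B.derivative.eval x * y ^ 4) := by
      simp only [derivative_sub, derivative_mul, derivative_C, zero_mul, zero_add, derivative_pow,
        eval_sub, eval_mul, eval_pow, eval_C]
      rw [h1]
      norm_num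
      ring
    rw [h3]
    exact mul_ne_zero (mul_ne_zero (by norm_num) hc) (hR x y h)

lemma T5 {A B : ℝ[X]} {c : ℝ} (hc : c ≠ 0) (hA : A.natDegree ≤ 8) (hB : B.natDegree ≤ 3)
    (hR : Rg 5 A B c) : ∃ T : Finset ℝ, T.card ≤ 24 ∧ ∀ x y, y ≠ 0 → Cri 5 A B c x y → x ∈ T := by
  refine fin_T (C ((8 / 5) ^ 8 * c ^ 5) * A ^ 3 - C (27 / 125) * B ^ 8) 24 ?_ _ ?_ ?_
  · refine (natDegree_sub_le _ _).trans (max_le ?_ ?_)
    · exact (natDegree_C_mul_le _ _).trans (natDegree_pow_le.trans (by omega))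
    · exact (natDegree_C_mul_le _ _).trans (natDegree_pow_le.trans (by omega))
  · intro x y hy h
    obtain ⟨h1, h2⟩ := c5 hy h
    simp only [eval_sub, eval_mul, eval_pow, eval_C]
    rw [h1, h2]
    ring
  · intro x y hy h
    obtain ⟨h1, h2⟩ := c5 hy h
    have h3 : (C ((8 / 5) ^ 8 * c ^ 5) * A ^ 3 - C (27 / 125) * B ^ 8).derivative.eval x =
        (8 / 5) ^ 8 * (27 / 25) * c ^ 7 * y ^ 16 *
          (A.derivative.eval x + B.derivative.eval x * y ^ 5) := by
      simp only [derivative_sub, derivative_mul, derivative_C, zero_mul, zero_add, derivative_pow,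
        eval_sub, eval_mul, eval_pow, eval_C]
      rw [h1, h2]
      norm_num
      ring
    rw [h3]
    refine mul_ne_zero ?_ (hR x y h)
    have := pow_ne_zero 16 hy
    have := pow_ne_zero 7 hc
    positivity

lemma T6 {A B : ℝ[X]} {c : ℝ} (hc : c ≠ 0) (hA : A.natDegree ≤ 8) (hB : B.natDegree ≤ 2)
    (hR : Rg 6 A B c) : ∃ T : Finset ℝ, T.card ≤ 8 ∧ ∀ x y, y ≠ 0 → Cri 6 A B c x y → x ∈ T := by
  refine fin_T (C (256 / 27 * c ^ 3) * A - B ^ 4) 8 ?_ _ ?_ ?_
  · refine (natDegree_sub_le _ _).trans (max_le ?_ ?_)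
    · exact (natDegree_C_mul_le _ _).trans hA
    · exact natDegree_pow_le.trans (by omega)
  · intro x y hy h
    obtain ⟨h1, h2⟩ := c6 hy h
    simp only [eval_sub, eval_mul, eval_pow, eval_C]
    rw [h1, h2]
    ring
  · intro x y hy h
    obtain ⟨h1, h2⟩ := c6 hy h
    have h3 : (C (256 / 27 * c ^ 3) * A - B ^ 4).derivative.eval x =
        256 / 27 * c ^ 3 * (A.derivative.eval x + B.derivative.eval x * y ^ 6) := by
      simp only [derivative_sub, derivative_mul, derivative_C, zero_mul, zero_add, derivative_pow,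
        eval_sub, eval_mul, eval_pow, eval_C]
      rw [h1]
      norm_num
      ring
    rw [h3]
    exact mul_ne_zero (mul_ne_zero (by norm_num) (pow_ne_zero 3 hc)) (hR x y h)

lemma T7 {A B : ℝ[X]} {c : ℝ} (hc : c ≠ 0) (hA : A.natDegree ≤ 8) (hB : B.natDegree ≤ 1)
    (hR : Rg 7 A B c) : ∃ T : Finset ℝ, T.card ≤ 8 ∧ ∀ x y, y ≠ 0 → Cri 7 A B c x y → x ∈ T := by
  refine fin_T (C (7 * (8 / 7) ^ 8 * c ^ 7) * A - B ^ 8) 8 ?_ _ ?_ ?_
  · refine (natDegree_sub_le _ _).trans (max_le ?_ ?_)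
    · exact (natDegree_C_mul_le _ _).trans hA
    · exact natDegree_pow_le.trans (by omega)
  · intro x y hy h
    obtain ⟨h1, h2⟩ := c7 hy h
    simp only [eval_sub, eval_mul, eval_pow, eval_C]
    rw [h1, h2]
    ring
  · intro x y hy h
    obtain ⟨h1, h2⟩ := c7 hy h
    have h3 : (C (7 * (8 / 7) ^ 8 * c ^ 7) * A - B ^ 8).derivative.eval x =
        7 * (8 / 7) ^ 8 * c ^ 7 * (A.derivative.eval x + B.derivative.eval x * y ^ 7) := by
      simp only [derivative_sub, derivative_mul, derivative_C, zero_mul, zero_add, derivative_pow,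
        eval_sub, eval_mul, eval_pow, eval_C]
      rw [h1]
      norm_num
      ring
    rw [h3]
    exact mul_ne_zero (mul_ne_zero (by norm_num) (pow_ne_zero 7 hc)) (hR x y h)

/-- the real roots of a trinomial -/
lemma roots_tri (m R : ℕ) (e : Bool) (S : Finset (Fin 3)) (hS : ∀ y, y ≠ 0 → sg e y ∈ S)
    (hR : S.card + 1 ≤ R) (a b c : ℝ) (hc : c ≠ 0) (hm : 1 ≤ m) (hm8 : m ≤ 7)
    (hsame : ∀ y y', y ≠ 0 → y' ≠ 0 → m * b * y ^ (m - 1) + 8 * c * y ^ 7 = 0 →
      m * b * y' ^ (m - 1) + 8 * c * y' ^ 7 = 0 → sg e y = sg e y' → y = y') :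
    (C a + C b * X ^ m + C c * X ^ 8 : ℝ[X]).roots.toFinset.card ≤ R + 1 := by
  classical
  set f : ℝ[X] := C a + C b * X ^ m + C c * X ^ 8 with hf
  have hd : ∀ t, f.derivative.eval t = m * b * t ^ (m - 1) + 8 * c * t ^ 7 := by
    intro t
    rw [hf]
    simp only [derivative_add, derivative_mul, derivative_C, derivative_X_pow, zero_mul, zero_add,
      eval_add, eval_mul, eval_C, eval_pow, eval_X]
    norm_num
    ring
  have hco : f.coeff 8 = c := by
    rw [hf]
    simp only [coeff_add, coeff_C_mul, coeff_X_pow, coeff_C]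
    rw [if_neg (by norm_num), if_neg (by omega)]
    simp
  have hd0 : f.derivative ≠ 0 := by
    intro h
    have h1 : f.derivative.coeff 7 = 0 := by rw [h]; simp
    rw [coeff_derivative, hco] at h1
    norm_num at h1
    exact hc h1
  refine (card_roots_toFinset_le_derivative f).trans (Nat.add_le_add_right ?_ 1)
  refine le_trans ?_ hR
  refine le_trans ?_ (Finset.card_insert_le (0 : Fin 3) S)
  apply Finset.card_le_card_of_injOn (sg e)
  · intro t _
    rw [Finset.mem_coe, Finset.mem_insert]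
    by_cases h : t = 0
    · left
      exact (sg_zero e t).2 h
    · right
      exact hS t h
  · intro t ht t' ht' h
    rw [Finset.mem_coe, Multiset.mem_toFinset, mem_roots hd0, IsRoot.def, hd] at ht ht'
    by_cases h0 : t = 0
    · have h1 := (sg_zero e t).2 h0
      rw [h] at h1
      rw [h0, (sg_zero e t').1 h1]
    · have h0' : t' ≠ 0 := by
        intro h1
        have h2 := (sg_zero e t').2 h1
        rw [← h] at h2
        exact h0 ((sg_zero e t).1 h2)
      exact hsame t t' h0 h0' ht ht' h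

end Pool.Agent.L7h69.TO
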