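import Pool.Agent.L7h69.TO.Main
import Pool.Agent.L7h77.OC.Trans
import Pool.Agent.L7h28.HF.Stm

/-!
# From three terms with `m = 4` to the normal form of project HF
-/

set_option autoImplicit false

namespace Pool.Agent.L7h69.TO

open Pool.Agent.L7h17.OC

/-- the transposition of the last two coordinates -/
def Sw : Matrix (Fin 3) (Fin 3) ℝ := !![1, 0, 0; 0, 0, 1; 0, 1, 0]

theorem sw_mul : Sw * Sw = 1 := by
  ext i j
  fin_cases i <;> fin_cases j <;> simp [Sw, Matrix.mul_apply, Fin.sum_univ_three]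

theorem sw_unit : IsUnit Sw := ⟨⟨Sw, Sw, sw_mul, sw_mul⟩, rfl⟩

theorem eval_sw (F : MvPolynomial (Fin 3) ℝ) (x y w : ℝ) :
    MvPolynomial.eval ![x, y, w] (change Sw F) = MvPolynomial.eval ![x, w, y] F := by
  rw [Pool.Agent.L7h77.OC.eval_change]
  have h : Sw.mulVec ![x, y, w] = ![x, w, y] := by
    funext i
    fin_cases i <;> simp [Sw, Matrix.mulVec, dotProduct, Fin.sum_univ_three]
  rw [h]

theorem q4 {F : MvPolynomial (Fin 3) ℝ} (h : ThreeTerms 4 F) :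
    ∃ (a : ℝ) (b c : ℕ → ℝ), Pool.Agent.L7h28.HF.Q4 (change Sw F) a b c := by
  obtain ⟨a, b, c, hc, hv⟩ := h
  refine ⟨c, b, a, hc, fun x y w => ?_⟩
  rw [eval_sw, hv]
  simp only [Matrix.cons_val_zero, Matrix.cons_val_one, Matrix.cons_val]
  have e : (9 - 4 : ℕ) = 5 := rfl
  have e' : (8 - 4 : ℕ) = 4 := rfl
  rw [e, e']
  ring

theorem four_hf {N : ℕ} (hb : ∀ (k : ℕ) (F : MvPolynomial (Fin 3) ℝ) (a : ℝ) (b c : ℕ → ℝ),
      F.IsHomogeneous 8 → Nonsing F → Pool.Agent.L7h28.HF.Q4 F a b c → SplitsInto k F → k ≤ N)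
    {F : MvPolynomial (Fin 3) ℝ} {k : ℕ} (hF : F.IsHomogeneous 8) (hN : Nonsing F)
    (h3 : ThreeTerms 4 F) (hk : SplitsInto k F) : k ≤ N := by
  obtain ⟨t1, _, t2, t3⟩ := Pool.Agent.L7h77.OC.s_TRANS F Sw sw_unit
  obtain ⟨a, b, c, h⟩ := q4 h3
  exact hb k _ a b c (t1 hF) (t2 hN) h (t3 k hk)

end Pool.Agent.L7h69.TO
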